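import Pool.Agent.Hhelper78.MP955413.Final

open MeasureTheory Filter Topology

namespace Pool.Agent.Results.MP_955413_lc.UniformConvergence

open Pool.Agent.Hhelper78.MP955413

universe u v

/-- Let `A` be a Boolean algebra with the Grothendieck property, or only with the positive
Grothendieck property. Then every sequence of Boolean homomorphisms from `A` to the measure algebra
of an arbitrary probability space (in particular to every `M_κ`) that converges pointwise
algebraically to a homomorphism converges to it uniformly. -/
theorem result {A : Type u} [BooleanAlgebra A]
    (hA : GrothendieckProperty A ∨ PositiveGrothendieckProperty A)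
    {Ω : Type v} [MeasurableSpace Ω] (P : Measure Ω) [IsProbabilityMeasure P]
    (φ : ℕ → BoundedLatticeHom A (MeasAlg P)) (ψ : BoundedLatticeHom A (MeasAlg P))
    (hconv : PointwiseAlgConv φ ψ) :
    UniformConv φ ψ := by
  have hpos : PositiveGrothendieckProperty A := by
    rcases hA with hA | hA
    · exact fun f g _ hfg Φ => hA f g hfg Φ
    · exact hA
  exact uniformConv_of_positiveGrothendieck hpos φ ψ hconv

end Pool.Agent.Results.MP_955413_lc.UniformConvergence
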